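import Pool.Agent.Lib.MP_bc0e65_co.AllP

/-!
Every positive integer is the period of an element of some misere quotient.
-/

namespace Pool.Agent.Results.MP_bc0e65_co.AllPeriods

open Pool.Agent.Lib.MP_bc0e65_co

theorem result : ∀ p : ℕ, 1 ≤ p → ∃ (A : ClosedSet) (x : MisereQuotient A), HasPeriod x p :=
  exists_period

end Pool.Agent.Results.MP_bc0e65_co.AllPeriods
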